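import Pool.Agent.helper23.TS.Defs

set_option autoImplicit false

namespace Pool.Agent.helper23.TS

open Pointwise

private theorem toR_inj {d : ℕ} {x y : Fin d → ℤ} (h : toR x = toR y) : x = y := by
  funext i
  have := congrFun h i
  unfold toR at this
  exact_mod_cast this

theorem Sys.inj {d : ℕ} (S : Sys d) : Function.Injective S.R := by
  intro x y h
  have h1 : S.A (toR x) = S.A (toR y) := by rw [S.compat, S.compat, h]
  exact toR_inj (S.A.injective h1)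

private theorem Mv.trans' {L : Type*} [AddCommGroup L] {R : L →+ L} {E : Set L} {n m : ℕ}
    {x y z : L} (h : Mv R E n x y) (h' : Mv R E m y z) : Mv R E (n + m) x z := by
  induction h with
  | zero x => rw [Nat.zero_add]; exact h'
  | succ he hx _ ih =>
    rw [Nat.add_right_comm]
    exact Mv.succ he hx (ih h')

private theorem bound {d : ℕ} (S : Sys d) (E : Set (Fin d → ℤ)) (c : ℝ)
    (hc : ∀ e ∈ E, ‖toR e‖ ≤ c) {n : ℕ} {x y : Fin d → ℤ} (h : Mv S.R E n x y) :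
    ‖toR y - ((S.A.symm : (Fin d → ℝ) →L[ℝ] (Fin d → ℝ)) ^ n) (toR x)‖ ≤
      c * ∑ i ∈ Finset.range n, ‖((S.A.symm : (Fin d → ℝ) →L[ℝ] (Fin d → ℝ)) ^ (i + 1))‖ := by
  induction h with
  | zero x => simp
  | @succ n x y z e he hx _ ih =>
    have e1 : toR x = toR e + S.A (toR y) := by
      rw [S.compat, hx]
      funext i
      simp [toR]
    have e2 : toR y = (S.A.symm : (Fin d → ℝ) →L[ℝ] (Fin d → ℝ)) (toR x - toR e) := by
      rw [e1]
      simp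
    have e3 : ((S.A.symm : (Fin d → ℝ) →L[ℝ] (Fin d → ℝ)) ^ n) (toR y) =
        ((S.A.symm : (Fin d → ℝ) →L[ℝ] (Fin d → ℝ)) ^ (n + 1)) (toR x)
        - ((S.A.symm : (Fin d → ℝ) →L[ℝ] (Fin d → ℝ)) ^ (n + 1)) (toR e) := by
      rw [← map_sub, pow_succ, e2]
      rfl
    have e4 : toR z - ((S.A.symm : (Fin d → ℝ) →L[ℝ] (Fin d → ℝ)) ^ (n + 1)) (toR x) =
        (toR z - ((S.A.symm : (Fin d → ℝ) →L[ℝ] (Fin d → ℝ)) ^ n) (toR y))
        - ((S.A.symm : (Fin d → ℝ) →L[ℝ] (Fin d → ℝ)) ^ (n + 1)) (toR e) := by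
      rw [e3]; abel
    rw [e4, Finset.sum_range_succ, mul_add]
    refine le_trans (norm_sub_le _ _) (add_le_add ih ?_)
    refine le_trans (ContinuousLinearMap.le_opNorm _ _) ?_
    rw [mul_comm]
    exact mul_le_mul_of_nonneg_right (hc e he) (norm_nonneg _)

private theorem finite_ball {d : ℕ} (r : ℝ) : {y : Fin d → ℤ | ‖toR y‖ ≤ r}.Finite := by
  refine (Set.finite_Icc (fun _ : Fin d => -⌈r⌉) (fun _ : Fin d => ⌈r⌉)).subset ?_
  intro y hy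
  have h1 : ∀ i, |(y i : ℝ)| ≤ r := fun i => by
    have := norm_le_pi_norm (toR y) i
    rw [Real.norm_eq_abs] at this
    exact le_trans this hy
  rw [Set.mem_Icc]
  constructor
  · intro i
    have h2 := (abs_le.1 (h1 i)).1
    have h3 : r ≤ (⌈r⌉ : ℝ) := Int.le_ceil r
    have h4 : -(⌈r⌉ : ℝ) ≤ (y i : ℝ) := by linarith
    exact_mod_cast h4
  · intro i
    have h2 := (abs_le.1 (h1 i)).2
    have h3 : r ≤ (⌈r⌉ : ℝ) := Int.le_ceil r
    have h4 : (y i : ℝ) ≤ (⌈r⌉ : ℝ) := by linarith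
    exact_mod_cast h4

theorem Sys.hasAttr {d : ℕ} (S : Sys d) : HasAttr S.R := by
  intro E hE
  obtain ⟨c, hc0, hc⟩ : ∃ c : ℝ, 0 ≤ c ∧ ∀ e ∈ E, ‖toR e‖ ≤ c := by
    obtain ⟨c, hc⟩ := (hE.image fun e => ‖toR e‖).bddAbove
    refine ⟨max c 0, le_max_right _ _, fun e he => le_trans (hc ⟨e, he, rfl⟩) (le_max_left _ _)⟩
  set M : (Fin d → ℝ) →L[ℝ] (Fin d → ℝ) := (S.A.symm : (Fin d → ℝ) →L[ℝ] (Fin d → ℝ)) with hM
  set s := ∑' n : ℕ, ‖M ^ n‖ with hs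
  have hs0 : 0 ≤ s := tsum_nonneg fun _ => norm_nonneg _
  have hle : ∀ n, ‖M ^ n‖ ≤ s := fun n => S.summ.le_tsum n (fun _ _ => norm_nonneg _)
  have hsum : ∀ n, ∑ i ∈ Finset.range n, ‖M ^ (i + 1)‖ ≤ s := by
    intro n
    have h1 : ∑ i ∈ Finset.range n, ‖M ^ (i + 1)‖ ≤ ∑ i ∈ Finset.range (n + 1), ‖M ^ i‖ := by
      rw [Finset.sum_range_succ']
      linarith [norm_nonneg (M ^ 0)]
    exact le_trans h1 (S.summ.sum_le_tsum _ (fun _ _ => norm_nonneg _))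
  have key : ∀ {n : ℕ} {x y : Fin d → ℤ}, Mv S.R E n x y → ‖toR y‖ ≤ ‖M ^ n‖ * ‖toR x‖ + c * s := by
    intro n x y h
    have h1 := bound S E c hc h
    have h2 : ‖toR y‖ ≤ ‖toR y - (M ^ n) (toR x)‖ + ‖(M ^ n) (toR x)‖ := by
      have := norm_add_le (toR y - (M ^ n) (toR x)) ((M ^ n) (toR x))
      rwa [sub_add_cancel] at this
    have h3 : ‖(M ^ n) (toR x)‖ ≤ ‖M ^ n‖ * ‖toR x‖ := ContinuousLinearMap.le_opNorm _ _
    have h4 : c * ∑ i ∈ Finset.range n, ‖M ^ (i + 1)‖ ≤ c * s :=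
      mul_le_mul_of_nonneg_left (hsum n) hc0
    linarith
  set ρ := c * s + 1 with hρ
  refine ⟨{y | ∃ (n : ℕ) (x : Fin d → ℤ), ‖toR x‖ ≤ ρ ∧ Mv S.R E n x y}, ?_, ?_, ?_⟩
  · refine (finite_ball (s * ρ + c * s)).subset ?_
    rintro y ⟨n, x, hx, h⟩
    have h1 := key h
    have h2 : ‖M ^ n‖ * ‖toR x‖ ≤ s * ρ :=
      mul_le_mul (hle n) hx (norm_nonneg _) hs0
    show ‖toR y‖ ≤ s * ρ + c * s
    linarith
  · rintro y ⟨n, x, hx, h⟩ m z h'
    exact ⟨n + m, x, hx, h.trans' h'⟩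
  · intro x
    have ht : Filter.Tendsto (fun n : ℕ => ‖M ^ n‖ * ‖toR x‖) Filter.atTop (nhds 0) := by
      have := S.summ.tendsto_atTop_zero.mul_const ‖toR x‖
      rwa [zero_mul] at this
    have hev : ∀ᶠ n : ℕ in Filter.atTop, ‖M ^ n‖ * ‖toR x‖ < 1 :=
      ht.eventually (gt_mem_nhds one_pos)
    obtain ⟨n₀, hn₀⟩ := Filter.eventually_atTop.1 hev
    refine ⟨n₀, fun n hn y h => ⟨0, y, ?_, Mv.zero y⟩⟩
    have h1 := key h
    have h2 := hn₀ n hn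
    linarith

end Pool.Agent.helper23.TS
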