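import Pool.Agent.helper23.TS.Defs

set_option autoImplicit false

namespace Pool.Agent.helper23.TS

open Pointwise

private theorem symm_eq (S : Sys 1) (hS : ∀ x, S.R x = 2 • x) (v : Fin 1 → ℝ) :
    S.A.symm v = (2 : ℝ)⁻¹ • v := by
  have h1 : S.A (toR fun _ => 1) = (2 : ℝ) • toR (fun _ => 1) := by
    rw [S.compat, hS]
    funext i
    simp [toR]
  have h2 : ∀ w : Fin 1 → ℝ, w = (w 0) • toR (fun _ : Fin 1 => (1 : ℤ)) := by
    intro w
    funext i
    have : i = 0 := Subsingleton.elim _ _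
    subst this
    simp [toR]
  have h3 : ∀ w : Fin 1 → ℝ, S.A w = (2 : ℝ) • w := by
    intro w
    conv_lhs => rw [h2 w]
    rw [map_smul, h1, smul_comm, ← h2 w]
  rw [ContinuousLinearEquiv.symm_apply_eq, h3, smul_smul]
  norm_num

theorem cex (S : Sys 1) (hS : ∀ x, S.R x = 2 • x) (D : Set (Fin 1 → ℤ)) (hs : Simple S.R D)
    (h0 : (0 : Fin 1 → ℤ) ∈ D) (TB TD : Set (Fin 1 → ℝ)) (hTB : IsAttr S {0} TB)
    (hTD : IsAttr S D TD) : TB ∩ interior TD = ∅ := by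
  -- `TB ⊆ {0}`
  have hB : ∀ x ∈ TB, x = 0 := by
    obtain ⟨hne, hco, heq⟩ := hTB
    obtain ⟨x₀, hx₀, hmax⟩ := hco.exists_isMaxOn hne continuous_norm.continuousOn
    have h1 : x₀ ∈ ⋃ b ∈ ({0} : Set (Fin 1 → ℤ)), (fun x => S.A.symm (x + toR b)) '' TB := by
      rw [← heq]; exact hx₀
    simp only [Set.mem_iUnion, Set.mem_image] at h1
    obtain ⟨b, hb, y, hy, hyx⟩ := h1
    have hb0 : toR b = 0 := by
      rw [Set.mem_singleton_iff.1 hb]; funext i; simp [toR]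
    rw [hb0, add_zero, symm_eq S hS] at hyx
    have h2 : ‖x₀‖ = 2⁻¹ * ‖y‖ := by rw [← hyx, norm_smul]; norm_num
    have h3 : ‖y‖ ≤ ‖x₀‖ := hmax hy
    have h4 : ‖x₀‖ = 0 := by
      have := norm_nonneg x₀
      linarith
    intro x hx
    have h5 : ‖x‖ ≤ ‖x₀‖ := hmax hx
    rw [h4] at h5
    exact norm_le_zero_iff.1 h5
  -- all digits have the same sign
  have hsgn : (∀ b ∈ D, 0 ≤ b 0) ∨ (∀ b ∈ D, b 0 ≤ 0) := by
    by_contra hcon
    push Not at hcon
    obtain ⟨⟨b, hb, hb0⟩, ⟨b', hb', hb0'⟩⟩ := hcon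
    have odd_of : ∀ c ∈ D, c 0 ≠ 0 → c 0 % 2 = 1 := by
      intro c hc hc0
      by_contra hev
      have h2 : c 0 = 2 * (c 0 / 2) := by omega
      have h3 : c = 0 := by
        apply hs c hc 0 h0 (fun _ => c 0 / 2)
        rw [hS]
        funext i
        have : i = 0 := Subsingleton.elim _ _
        subst this
        have hh : (2 • (fun _ : Fin 1 => c 0 / 2)) 0 = 2 * (c 0 / 2) := by
          rw [Pi.smul_apply, nsmul_eq_mul]; rfl
        rw [Pi.add_apply, Pi.zero_apply, hh, zero_add]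
        exact h2
      rw [h3] at hc0
      exact hc0 rfl
    have h1 := odd_of b hb (ne_of_lt hb0)
    have h2 := odd_of b' hb' (ne_of_gt hb0')
    have h3 : b = b' := by
      apply hs b hb b' hb' (fun _ => (b 0 - b' 0) / 2)
      rw [hS]
      funext i
      have : i = 0 := Subsingleton.elim _ _
      subst this
      have hh : (2 • (fun _ : Fin 1 => (b 0 - b' 0) / 2)) 0 = 2 * ((b 0 - b' 0) / 2) := by
        rw [Pi.smul_apply, nsmul_eq_mul]; rfl
      rw [Pi.add_apply, hh]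
      omega
    rw [h3] at hb0
    omega
  rw [Set.eq_empty_iff_forall_notMem]
  rintro x ⟨hx, hxD⟩
  rw [hB x hx] at hxD
  obtain ⟨hne, hco, heq⟩ := hTD
  have hcont : ContinuousOn (fun v : Fin 1 → ℝ => v 0) TD := (continuous_apply 0).continuousOn
  have hdec : ∀ v ∈ TD, ∃ b ∈ D, ∃ y ∈ TD, v 0 = 2⁻¹ * (y 0 + b 0) := by
    intro v hv
    have h1 : v ∈ ⋃ b ∈ D, (fun x => S.A.symm (x + toR b)) '' TD := by
      rw [← heq]; exact hv
    simp only [Set.mem_iUnion, Set.mem_image] at h1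
    obtain ⟨b, hb, y, hy, hyv⟩ := h1
    refine ⟨b, hb, y, hy, ?_⟩
    rw [← hyv, symm_eq S hS]
    simp [toR]
  rw [mem_interior_iff_mem_nhds, Metric.mem_nhds_iff] at hxD
  obtain ⟨ε, hε, hball⟩ := hxD
  rcases hsgn with hp | hn
  · obtain ⟨v₀, hv₀, hmin⟩ := hco.exists_isMinOn hne hcont
    obtain ⟨b, hb, y, hy, hv⟩ := hdec v₀ hv₀
    have h1 : v₀ 0 ≤ y 0 := hmin hy
    have h2 : (0 : ℝ) ≤ (b 0 : ℝ) := by exact_mod_cast hp b hb
    have h3 : 0 ≤ v₀ 0 := by linarith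
    have h4 : (fun _ : Fin 1 => -(ε / 2)) ∈ TD := by
      apply hball
      rw [mem_ball_zero_iff]
      refine (pi_norm_lt_iff hε).2 fun i => ?_
      rw [Real.norm_eq_abs, abs_neg, abs_of_pos (by linarith)]
      linarith
    have h5 : v₀ 0 ≤ -(ε / 2) := hmin h4
    linarith
  · obtain ⟨v₀, hv₀, hmax⟩ := hco.exists_isMaxOn hne hcont
    obtain ⟨b, hb, y, hy, hv⟩ := hdec v₀ hv₀
    have h1 : y 0 ≤ v₀ 0 := hmax hy
    have h2 : (b 0 : ℝ) ≤ 0 := by exact_mod_cast hn b hb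
    have h3 : v₀ 0 ≤ 0 := by linarith
    have h4 : (fun _ : Fin 1 => (ε / 2)) ∈ TD := by
      apply hball
      rw [mem_ball_zero_iff]
      refine (pi_norm_lt_iff hε).2 fun i => ?_
      rw [Real.norm_eq_abs, abs_of_pos (by linarith)]
      linarith
    have h5 : (ε / 2) ≤ v₀ 0 := hmax h4
    linarith

end Pool.Agent.helper23.TS
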